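import Mathlib

/-!
# Sums of dilates can be smaller than sumsets

`S + 2·S` can have fewer elements than `S + S`, by a power: there are arbitrarily large finite sets
`S` of integers with `|S + 2·S| ^ 126 < |S + S| ^ 125`. Hence the indicator function `α` of `S` is a
fractional dilate with `‖α + 2·α‖ < ‖α + α‖`.

Construction. Let `U` be the set of the integers in `[0, 45)` that are congruent to one of
`0, 1, 3, 5, 6, 10, 11` modulo `15`, and `V` the set of the odd elements of `U`. Then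
`|V + 2·U| = 54`, `|U + 2·U| = 107` and `|U + V| = 79`, and `54 * 107 < 79 ^ 2`. The set
`S = (V ^ m × U ^ m) ∪ (U ^ m × V ^ m)` (embedded into the integers by digit expansions in base
`1000`) satisfies `|S + S| ≥ 79 ^ (2m)` and `|S + 2·S| ≤ 2 * (54 * 107) ^ m`.
-/

open Finset
open scoped ENNReal

namespace Pool.Agent.Results.MP_6c466c_co.DilateBelowSumset

/-- A fractional dilate: a function `α : ℤ → [0, 1]` with finite sum. -/
def IsFractionalDilate (α : ℤ → ℝ) : Prop :=
  (∀ i, 0 ≤ α i ∧ α i ≤ 1) ∧ Summable α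

/-- `‖α + c·α‖ = inf_{0 < p < 1} ∑_i (∑_{j + c k = i} α j α k) ^ p`. -/
noncomputable def dilateNorm (c : ℤ) (α : ℤ → ℝ) : ℝ≥0∞ :=
  ⨅ p ∈ Set.Ioo (0 : ℝ) 1,
    ∑' i : ℤ, (∑' k : ℤ, ENNReal.ofReal (α (i - c * k) * α k)) ^ p

/-- `X + c·Y = {x + c y : x ∈ X, y ∈ Y}`. -/
def dilSum (c : ℤ) (X Y : Finset ℤ) : Finset ℤ :=
  image₂ (fun x y => x + c * y) X Y

/-- The indicator function of a finite set. -/
noncomputable def ind (S : Finset ℤ) : ℤ → ℝ := fun i => if i ∈ S then 1 else 0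

/-! ### Digit expansions -/

/-- The numbers all of whose `m` digits in base `1000` are in `X`. -/
def P (X : Finset ℤ) : ℕ → Finset ℤ
  | 0 => {0}
  | m + 1 => image₂ (fun x y => x + 1000 * y) X (P X m)

lemma P_card_le (X : Finset ℤ) (m : ℕ) : (P X m).card ≤ X.card ^ m := by
  induction m with
  | zero => simp [P]
  | succ m ih =>
    rw [P, pow_succ']
    exact (card_image₂_le _ _ _).trans (Nat.mul_le_mul_left _ ih)

lemma P_mono {X Y : Finset ℤ} (h : X ⊆ Y) (m : ℕ) : P X m ⊆ P Y m := by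
  induction m with
  | zero => simp [P]
  | succ m ih =>
    rw [P, P]
    exact image₂_subset h ih

lemma P_range {X : Finset ℤ} (hX : ∀ x ∈ X, 0 ≤ x ∧ x < 1000) (m : ℕ) :
    ∀ z ∈ P X m, 0 ≤ z ∧ z < 1000 ^ m := by
  induction m with
  | zero => simp [P]
  | succ m ih =>
    intro z hz
    rw [P, mem_image₂] at hz
    obtain ⟨x, hx, y, hy, rfl⟩ := hz
    have h1 := hX x hx
    have h2 := ih y hy
    refine ⟨by linarith, ?_⟩
    rw [pow_succ']
    have h3 : y + 1 ≤ 1000 ^ m := h2.2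
    linarith

lemma card_image₂_digits {X Y : Finset ℤ} {N : ℤ} (hX : ∀ x ∈ X, 0 ≤ x ∧ x < N) :
    (image₂ (fun x y => x + N * y) X Y).card = X.card * Y.card := by
  rw [card_image₂_iff.2]
  rintro ⟨x, y⟩ h ⟨x', y'⟩ h' he
  simp only [Set.mem_prod, mem_coe] at h h'
  simp only at he
  have h1 := hX x h.1
  have h2 := hX x' h'.1
  have hN : 0 < N := by linarith
  have hx : x = x' := by
    have e1 : (x + N * y) % N = x := by
      rw [Int.add_mul_emod_self_left]; exact Int.emod_eq_of_lt h1.1 h1.2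
    have e2 : (x' + N * y') % N = x' := by
      rw [Int.add_mul_emod_self_left]; exact Int.emod_eq_of_lt h2.1 h2.2
    rw [← e1, ← e2, he]
  subst hx
  have : N * y = N * y' := by linarith
  rw [mul_left_cancel₀ hN.ne' this]

lemma P_card {X : Finset ℤ} (hX : ∀ x ∈ X, 0 ≤ x ∧ x < 1000) (m : ℕ) :
    (P X m).card = X.card ^ m := by
  induction m with
  | zero => simp [P]
  | succ m ih => rw [P, card_image₂_digits hX, ih, pow_succ']

lemma P_dilSum (c : ℤ) (X Y : Finset ℤ) (m : ℕ) :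
    dilSum c (P X m) (P Y m) = P (dilSum c X Y) m := by
  induction m with
  | zero => simp [P, dilSum]
  | succ m ih =>
    ext z
    rw [P, P, P, ← ih]
    simp only [dilSum, mem_image₂]
    constructor
    · rintro ⟨_, ⟨x, hx, x', hx', rfl⟩, _, ⟨y, hy, y', hy', rfl⟩, rfl⟩
      exact ⟨x + c * y, ⟨x, hx, y, hy, rfl⟩, x' + c * y', ⟨x', hx', y', hy', rfl⟩, by ring⟩
    · rintro ⟨_, ⟨x, hx, y, hy, rfl⟩, _, ⟨x', hx', y', hy', rfl⟩, rfl⟩
      exact ⟨x + 1000 * x', ⟨x, hx, x', hx', rfl⟩, y + 1000 * y', ⟨y, hy, y', hy', rfl⟩, by ring⟩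

/-! ### The two sets -/

/-- The elements of `[0, 45)` congruent to `0, 1, 3, 5, 6, 10` or `11` modulo `15`. -/
def U : Finset ℤ := {0, 1, 3, 5, 6, 10, 11, 15, 16, 18, 20, 21, 25, 26, 30, 31, 33, 35, 36, 40, 41}

/-- The odd elements of `U`. -/
def V : Finset ℤ := {1, 3, 5, 11, 15, 21, 25, 31, 33, 35, 41}

lemma V_subset : V ⊆ U := by decide

lemma card_VU : (dilSum 2 V U).card = 54 := by decide +kernel

lemma card_UU : (dilSum 2 U U).card = 107 := by decide +kernel

lemma card_UV : (dilSum 1 V U).card = 79 := by decide +kernel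

lemma range_UV : ∀ x ∈ dilSum 1 V U, 0 ≤ x ∧ x < 1000 := by decide +kernel

lemma card_U : U.card = 21 := by decide

lemma range_U : ∀ x ∈ U, 0 ≤ x ∧ x < 1000 := by decide

/-- The set `(V ^ m × U ^ m) ∪ (U ^ m × V ^ m)`. -/
def S (m : ℕ) : Finset ℤ :=
  image₂ (fun x y => x + 1000 ^ m * y) (P V m) (P U m) ∪
    image₂ (fun x y => x + 1000 ^ m * y) (P U m) (P V m)

lemma sum_ge (m : ℕ) : 6241 ^ m ≤ (dilSum 1 (S m) (S m)).card := by
  have h1 : image₂ (fun x y => x + 1000 ^ m * y) (P (dilSum 1 V U) m) (P (dilSum 1 V U) m) ⊆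
      dilSum 1 (S m) (S m) := by
    intro z hz
    rw [← P_dilSum] at hz
    simp only [dilSum, mem_image₂] at hz
    obtain ⟨_, ⟨v, hv, u, hu, rfl⟩, _, ⟨v', hv', u', hu', rfl⟩, rfl⟩ := hz
    rw [dilSum, mem_image₂]
    refine ⟨v + 1000 ^ m * u', ?_, u + 1000 ^ m * v', ?_, by ring⟩
    · exact mem_union_left _ (mem_image₂.2 ⟨v, hv, u', hu', rfl⟩)
    · exact mem_union_right _ (mem_image₂.2 ⟨u, hu, v', hv', rfl⟩)
  have h2 := card_le_card h1
  rw [card_image₂_digits (P_range range_UV m), P_card range_UV, card_UV] at h2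
  calc 6241 ^ m = 79 ^ m * 79 ^ m := by rw [← mul_pow]; norm_num
    _ ≤ _ := h2

lemma dil_le (m : ℕ) : (dilSum 2 (S m) (S m)).card ≤ 2 * 5778 ^ m := by
  have hsub : dilSum 2 (S m) (S m) ⊆
      image₂ (fun x y => x + 1000 ^ m * y) (P (dilSum 2 V U) m) (P (dilSum 2 U U) m) ∪
      image₂ (fun x y => x + 1000 ^ m * y) (P (dilSum 2 U U) m) (P (dilSum 2 V U) m) := by
    intro z hz
    rw [dilSum, mem_image₂] at hz
    obtain ⟨s, hs, t, ht, rfl⟩ := hz
    obtain ⟨a, ha, b, hb, rfl⟩ : ∃ a ∈ P U m, ∃ b ∈ P U m, a + 1000 ^ m * b = t := by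
      rcases mem_union.1 ht with h | h
      · obtain ⟨a, ha, b, hb, e⟩ := mem_image₂.1 h
        exact ⟨a, P_mono V_subset m ha, b, hb, e⟩
      · obtain ⟨a, ha, b, hb, e⟩ := mem_image₂.1 h
        exact ⟨a, ha, b, P_mono V_subset m hb, e⟩
    rw [← P_dilSum, ← P_dilSum]
    rcases mem_union.1 hs with h | h
    · obtain ⟨x, hx, y, hy, rfl⟩ := mem_image₂.1 h
      refine mem_union_left _ (mem_image₂.2 ⟨x + 2 * a, mem_image₂.2 ⟨x, hx, a, ha, rfl⟩,
        y + 2 * b, mem_image₂.2 ⟨y, hy, b, hb, rfl⟩, by ring⟩)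
    · obtain ⟨x, hx, y, hy, rfl⟩ := mem_image₂.1 h
      refine mem_union_right _ (mem_image₂.2 ⟨x + 2 * a, mem_image₂.2 ⟨x, hx, a, ha, rfl⟩,
        y + 2 * b, mem_image₂.2 ⟨y, hy, b, hb, rfl⟩, by ring⟩)
  have h1 : (P (dilSum 2 V U) m).card ≤ 54 ^ m := by
    have := P_card_le (dilSum 2 V U) m
    rwa [card_VU] at this
  have h2 : (P (dilSum 2 U U) m).card ≤ 107 ^ m := by
    have := P_card_le (dilSum 2 U U) m
    rwa [card_UU] at this
  calc (dilSum 2 (S m) (S m)).card ≤ _ := card_le_card hsub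
    _ ≤ _ := card_union_le _ _
    _ ≤ (P (dilSum 2 V U) m).card * (P (dilSum 2 U U) m).card +
        (P (dilSum 2 U U) m).card * (P (dilSum 2 V U) m).card :=
        add_le_add (card_image₂_le _ _ _) (card_image₂_le _ _ _)
    _ ≤ 54 ^ m * 107 ^ m + 107 ^ m * 54 ^ m :=
        add_le_add (Nat.mul_le_mul h1 h2) (Nat.mul_le_mul h2 h1)
    _ = 2 * 5778 ^ m := by
        rw [show (5778 : ℕ) = 54 * 107 by norm_num, mul_pow]; ring

lemma card_S_ge (m : ℕ) : m ≤ (S m).card := by
  have h1 : (P U m).card ≤ (S m).card := by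
    refine le_trans ?_ (card_le_card subset_union_right)
    rw [card_image₂_digits (P_range range_U m)]
    have : 0 < (P V m).card := by
      rw [P_card (fun x hx => range_U x (V_subset hx))]
      exact pow_pos (by decide) _
    exact Nat.le_mul_of_pos_right _ this
  rw [P_card range_U, card_U] at h1
  exact (Nat.lt_pow_self (by norm_num)).le.trans h1

lemma power_gap {m : ℕ} (hm : 90 ≤ m) :
    (dilSum 2 (S m) (S m)).card ^ 126 < (dilSum 1 (S m) (S m)).card ^ 125 := by
  have h1 : (dilSum 2 (S m) (S m)).card ^ 126 ≤ (2 * 5778 ^ m) ^ 126 :=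
    Nat.pow_le_pow_left (dil_le m) _
  have h2 : (6241 ^ m) ^ 125 ≤ (dilSum 1 (S m) (S m)).card ^ 125 :=
    Nat.pow_le_pow_left (sum_ge m) _
  refine lt_of_le_of_lt h1 (lt_of_lt_of_le ?_ h2)
  obtain ⟨k, rfl⟩ := Nat.exists_eq_add_of_le hm
  have e1 : (2 * 5778 ^ (90 + k)) ^ 126 = (2 ^ 126 * (5778 ^ 126) ^ 90) * (5778 ^ 126) ^ k := by
    rw [mul_pow, ← pow_mul, ← pow_mul, ← pow_mul, mul_assoc, ← pow_add]
    congr 2
    ring
  have e2 : (6241 ^ (90 + k)) ^ 125 = (6241 ^ 125) ^ 90 * (6241 ^ 125) ^ k := by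
    rw [← pow_mul, ← pow_mul, ← pow_mul, ← pow_add]
    congr 1
    ring
  rw [e1, e2]
  have h3 : (2 : ℕ) ^ 126 * (5778 ^ 126) ^ 90 < (6241 ^ 125) ^ 90 := by norm_num
  have h4 : (5778 : ℕ) ^ 126 ≤ 6241 ^ 125 := by norm_num
  exact Nat.mul_lt_mul_of_lt_of_le h3 (Nat.pow_le_pow_left h4 k) (by positivity)

/-! ### Norms of indicator functions -/

lemma ind_isFractionalDilate (S : Finset ℤ) : IsFractionalDilate (ind S) := by
  refine ⟨fun i => ?_, ?_⟩
  · unfold ind; split_ifs <;> norm_num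
  · refine summable_of_ne_finset_zero (s := S) fun i hi => ?_
    simp [ind, hi]

lemma inner_eq (c : ℤ) (S : Finset ℤ) (i : ℤ) :
    (∑' k : ℤ, ENNReal.ofReal (ind S (i - c * k) * ind S k)) =
      ((S.filter fun k => i - c * k ∈ S).card : ℝ≥0∞) := by
  rw [tsum_eq_sum (s := S)]
  · rw [card_filter]
    push_cast
    refine sum_congr rfl fun k hk => ?_
    by_cases h : i - c * k ∈ S <;> simp [ind, hk, h]
  · intro k hk
    simp [ind, hk]

lemma filter_nonempty_iff (c : ℤ) (S : Finset ℤ) (i : ℤ) :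
    (S.filter fun k => i - c * k ∈ S).Nonempty ↔ i ∈ dilSum c S S := by
  rw [dilSum, mem_image₂]
  constructor
  · rintro ⟨k, hk⟩
    rw [mem_filter] at hk
    exact ⟨i - c * k, hk.2, k, hk.1, by ring⟩
  · rintro ⟨x, hx, k, hk, rfl⟩
    exact ⟨k, mem_filter.2 ⟨hk, by simpa using hx⟩⟩

/-- `‖1_S + c·1_S‖ = |S + c·S|`. -/
lemma dilateNorm_ind (c : ℤ) (S : Finset ℤ) :
    dilateNorm c (ind S) = ((dilSum c S S).card : ℝ≥0∞) := by
  unfold dilateNorm
  apply le_antisymm
  · -- the upper bound, `p → 0`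
    have hp : ∀ p : ℝ, 0 < p → p < 1 →
        (⨅ p ∈ Set.Ioo (0 : ℝ) 1,
          ∑' i : ℤ, (∑' k : ℤ, ENNReal.ofReal (ind S (i - c * k) * ind S k)) ^ p) ≤
        ((dilSum c S S).card : ℝ≥0∞) * ((S.card : ℝ≥0∞) + 1) ^ p := by
      intro p h0 h1
      refine (iInf₂_le p ⟨h0, h1⟩).trans ?_
      rw [tsum_eq_sum (s := dilSum c S S)]
      · rw [← nsmul_eq_mul]
        refine sum_le_card_nsmul _ _ _ fun i _ => ?_
        rw [inner_eq]
        refine ENNReal.rpow_le_rpow ?_ h0.le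
        refine le_trans ?_ le_self_add
        exact_mod_cast card_le_card (filter_subset _ _)
      · intro i hi
        rw [inner_eq]
        have : (S.filter fun k => i - c * k ∈ S) = ∅ := by
          rw [← not_nonempty_iff_eq_empty, filter_nonempty_iff]
          exact hi
        rw [this]
        simp [h0]
    have hlim : Filter.Tendsto
        (fun n : ℕ => ((dilSum c S S).card : ℝ≥0∞) *
          ((S.card : ℝ≥0∞) + 1) ^ (1 / ((n : ℝ) + 2))) Filter.atTop
        (nhds (((dilSum c S S).card : ℝ≥0∞) * ((S.card : ℝ≥0∞) + 1) ^ (0 : ℝ))) := by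
      refine ENNReal.Tendsto.const_mul ?_ (Or.inr (ENNReal.natCast_ne_top _))
      have h1 : Filter.Tendsto (fun n : ℕ => 1 / ((n : ℝ) + 2)) Filter.atTop (nhds 0) := by
        have := (tendsto_one_div_add_atTop_nhds_zero_nat (𝕜 := ℝ))
        refine squeeze_zero (fun n => by positivity) (fun n => ?_) this
        exact one_div_le_one_div_of_le (by positivity) (by linarith)
      have h2 : Continuous fun y : ℝ => ((S.card : ℝ≥0∞) + 1) ^ y := by
        have h3 : ∀ y : ℝ, ((S.card : ℝ≥0∞) + 1) ^ y =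
            ENNReal.ofReal (((S.card : ℝ) + 1) ^ y) := by
          intro y
          rw [← ENNReal.ofReal_rpow_of_pos (by positivity),
            ENNReal.ofReal_add (by positivity) (by norm_num), ENNReal.ofReal_natCast,
            ENNReal.ofReal_one]
        simp only [h3]
        refine ENNReal.continuous_ofReal.comp ?_
        exact continuous_const.rpow continuous_id fun _ => Or.inl (by positivity)
      exact (h2.tendsto 0).comp h1
    rw [ENNReal.rpow_zero, mul_one] at hlim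
    refine ge_of_tendsto hlim (Filter.Eventually.of_forall fun n => ?_)
    have hn : (0 : ℝ) < (n : ℝ) + 2 := by positivity
    refine hp _ (by positivity) ?_
    rw [div_lt_one hn]
    have : (0 : ℝ) ≤ n := Nat.cast_nonneg n
    linarith
  · -- the lower bound
    refine le_iInf₂ fun p hp => ?_
    calc ((dilSum c S S).card : ℝ≥0∞) = ∑ i ∈ dilSum c S S, 1 := by simp
      _ ≤ ∑ i ∈ dilSum c S S,
          (∑' k : ℤ, ENNReal.ofReal (ind S (i - c * k) * ind S k)) ^ p := by
          refine sum_le_sum fun i hi => ?_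
          rw [inner_eq]
          refine ENNReal.one_le_rpow ?_ hp.1
          exact_mod_cast ((filter_nonempty_iff c S i).2 hi).card_pos
      _ ≤ _ := ENNReal.sum_le_tsum _

/-- For every `N` there is a finite set `S` of at least `N` integers with
`|S + 2·S| ^ 126 < |S + S| ^ 125`, and its indicator function `α` is a fractional dilate with
`‖α + 2·α‖ < ‖α + α‖`. -/
theorem result (N : ℕ) : ∃ S : Finset ℤ, N ≤ S.card ∧
    (dilSum 2 S S).card ^ 126 < (dilSum 1 S S).card ^ 125 ∧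
    IsFractionalDilate (ind S) ∧ dilateNorm 2 (ind S) < dilateNorm 1 (ind S) := by
  refine ⟨S (N + 90), le_trans (by omega) (card_S_ge _), power_gap (by omega),
    ind_isFractionalDilate _, ?_⟩
  rw [dilateNorm_ind, dilateNorm_ind]
  have h := power_gap (m := N + 90) (by omega)
  have h0 : 0 < (dilSum 1 (S (N + 90)) (S (N + 90))).card :=
    lt_of_lt_of_le (by positivity) (sum_ge _)
  have h1 : (dilSum 2 (S (N + 90)) (S (N + 90))).card <
      (dilSum 1 (S (N + 90)) (S (N + 90))).card := by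
    by_contra hc
    push Not at hc
    have h2 := Nat.pow_le_pow_left hc 125
    have h3 : (dilSum 2 (S (N + 90)) (S (N + 90))).card ^ 125 ≤
        (dilSum 2 (S (N + 90)) (S (N + 90))).card ^ 126 :=
      Nat.pow_le_pow_right (lt_of_lt_of_le h0 hc) (by norm_num)
    omega
  exact_mod_cast h1

end Pool.Agent.Results.MP_6c466c_co.DilateBelowSumset
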